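import Pool.Agent.FS.CommonSketch.Main

set_option autoImplicit false

namespace Pool.Agent.Results.MP_5350f3_lc.CommonSketch

open Pool.Agent.Lib.MP_5350f3_lc

/-- If a one-round protocol answers yes on all graphs with an induced `P₃` and no on all unions
of at most two cliques, and the vertices of `T` see the part of their input inside `T` only
through one common sketch with `M` values, then `2 ^ |T| ≤ 32 M ^ 4`. -/
theorem result (n M : ℕ) (μ : Fin n → Finset (Fin n) → List Bool)
    (R : (Fin n → List Bool) → Bool)
    (hyes : ∀ G : SimpleGraph (Fin n), HasInducedP3 G →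
      R (fun i => μ i (closedNbhd G i)) = true)
    (hno : ∀ G : SimpleGraph (Fin n), ¬ HasInducedP3 G → Nat.card G.ConnectedComponent ≤ 2 →
      R (fun i => μ i (closedNbhd G i)) = false)
    (T : Finset (Fin n)) (ν : Finset (Fin n) → Fin M)
    (hν : ∀ i ∈ T, ∀ A B, i ∈ A → i ∈ B → A \ T = B \ T → ν A = ν B → μ i A = μ i B) :
    2 ^ T.card ≤ 32 * M ^ 4 :=
  Pool.Agent.FS.CommonSketch.bound hyes hno hν

end Pool.Agent.Results.MP_5350f3_lc.CommonSketch
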