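import Pool.Agent.Lib.MP_5350f3_lc.DegMain

namespace Pool.Agent.Results.MP_5350f3_lc.LowDegreeFew

open Pool.Agent.Lib.MP_5350f3_lc

/-- In a deterministic one-round protocol for induced `P₃` with messages of at most `f` bits, fewer
than `58 D (f + 1)` vertices have degree at most `D` over a field `F`. -/
theorem result (n f D : ℕ) (hD : 1 ≤ D) (F : Type) [Field F]
    (μ : Fin n → Finset (Fin n) → List Bool) (R : (Fin n → List Bool) → Bool)
    (hsolves : Solves μ R) (hlen : ∀ i x, (μ i x).length ≤ f) (T : Finset (Fin n))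
    (hT : ∀ v ∈ T, LowDegree F D μ v) : T.card < 58 * D * (f + 1) :=
  lowDegree_bound hsolves hlen hD T hT

end Pool.Agent.Results.MP_5350f3_lc.LowDegreeFew
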