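import Pool.Agent.Lib.MP_5350f3_lc.Main

namespace Pool.Agent.Results.MP_5350f3_lc.MergeableLower

open Pool.Agent.Lib.MP_5350f3_lc

/-- A mergeable deterministic one-round protocol for induced `P₃` on `n` vertices with messages of
at most `f` bits has `n ≤ (2 f + 3) ^ 2 + 2`. -/
theorem result (n f : ℕ) (μ : Fin n → Finset (Fin n) → List Bool)
    (R : (Fin n → List Bool) → Bool) (hsolves : Solves μ R) (hmerge : Mergeable μ)
    (hlen : ∀ i x, (μ i x).length ≤ f) : n ≤ (2 * f + 3) ^ 2 + 2 :=
  mergeable_bound hsolves hmerge hlen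

end Pool.Agent.Results.MP_5350f3_lc.MergeableLower
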