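import Pool.Agent.Lib.MP_5350f3_lc.TwoMain

namespace Pool.Agent.Results.MP_5350f3_lc.TwoCliquesSublinear

open Pool.Agent.Lib.MP_5350f3_lc

/-- A deterministic one-round protocol with messages of `O (n ^ 0.98)` bits whose referee answers
yes exactly when the graph has an induced `P₃` or at least three connected components. -/
theorem result : ∃ c : ℝ, ∀ n : ℕ,
    ∃ (μ : Fin n → Finset (Fin n) → List Bool) (R : (Fin n → List Bool) → Bool),
      (∀ i S, ((μ i S).length : ℝ) ≤ c * (n : ℝ) ^ (0.98 : ℝ)) ∧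
      ∀ G : SimpleGraph (Fin n), R (fun i => μ i (closedNbhd G i)) = true ↔
        HasInducedP3 G ∨ 3 ≤ Nat.card G.ConnectedComponent :=
  ⟨10 ^ 13, Two.two_cliques⟩

end Pool.Agent.Results.MP_5350f3_lc.TwoCliquesSublinear
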